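import Pool.Agent.MP_dcb13e_co.H59.Final

namespace Pool.Agent.Results.MP_dcb13e_co.MinorFree

open Pool.Agent.MP_dcb13e_co.H59

/-- Balls of a `K_t`-minor-free graph have a sample compression scheme of size `O(t log t)`. -/
theorem result : ∃ C : ℝ, ∀ t : ℕ, 2 ≤ t → ∀ (V : Type) [Fintype V] (G : SimpleGraph V),
    ¬ IsMinor (⊤ : SimpleGraph (Fin t)) G →
      ∃ k : ℕ, (k : ℝ) ≤ C * t * Real.log t ∧ HasScheme (balls G) k :=
  ⟨762, fun _ ht _ _ _ hG => ⟨_, size_le ht, scheme ht fun h => hG h.isMinor⟩⟩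

end Pool.Agent.Results.MP_dcb13e_co.MinorFree
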