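import Pool.Agent.MP_dcb13e_co.H41.Main

/-! Balls in graphs of treewidth at most `t` have a proper compression scheme of size `O(t)`. -/

namespace Pool.Agent.Results.MP_dcb13e_co.TreewidthLinear

open Pool.Agent.MP_dcb13e_co.H41

theorem result : ∀ (V : Type) [Fintype V] (G : SimpleGraph V) (t : ℕ), TreewidthLE G t →
    HasProperScheme (balls G) (22 * t + 40) :=
  fun _ _ _ _ h => scheme h

end Pool.Agent.Results.MP_dcb13e_co.TreewidthLinear
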